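import Pool.Agent.Run7.h390.TP.Cor

/-!
# Localizations at a prime element

Owner helper390.
-/

set_option autoImplicit false

namespace Pool.Agent.Run7.h390.TP

open _root_.Run7.h909.GT _root_.Run7.h909.TD
open Pool.Agent.Y110.FJ (ClosedE)

section arith

theorem wcancel {x y : WithBot ℤ} (n : ℤ) (h : x + (n : WithBot ℤ) = y + n) : x = y := by
  rcases eq_or_ne x ⊥ with rfl | hx
  · rw [WithBot.bot_add] at h
    rcases eq_or_ne y ⊥ with rfl | hy
    · rfl
    · obtain ⟨b, rfl⟩ := WithBot.ne_bot_iff_exists.1 hy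
      rw [← WithBot.coe_add] at h
      exact absurd h.symm WithBot.coe_ne_bot
  · obtain ⟨a, rfl⟩ := WithBot.ne_bot_iff_exists.1 hx
    rcases eq_or_ne y ⊥ with rfl | hy
    · rw [WithBot.bot_add, ← WithBot.coe_add] at h
      exact absurd h WithBot.coe_ne_bot
    · obtain ⟨b, rfl⟩ := WithBot.ne_bot_iff_exists.1 hy
      rw [← WithBot.coe_add, ← WithBot.coe_add, WithBot.coe_inj] at h
      rw [WithBot.coe_inj]
      omega

theorem wcancel_le {x y : WithBot ℤ} (n : ℤ) (h : x + (n : WithBot ℤ) ≤ y + n) : x ≤ y := by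
  rcases eq_or_ne x ⊥ with rfl | hx
  · exact bot_le
  · obtain ⟨a, rfl⟩ := WithBot.ne_bot_iff_exists.1 hx
    rcases eq_or_ne y ⊥ with rfl | hy
    · rw [WithBot.bot_add, ← WithBot.coe_add, le_bot_iff] at h
      exact absurd h WithBot.coe_ne_bot
    · obtain ⟨b, rfl⟩ := WithBot.ne_bot_iff_exists.1 hy
      rw [← WithBot.coe_add, ← WithBot.coe_add, WithBot.coe_le_coe] at h
      rw [WithBot.coe_le_coe]
      omega

theorem wmax_add (x y : WithBot ℤ) (n : ℤ) : max (x + (n : WithBot ℤ)) (y + n) = max x y + n := by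
  rcases le_total x y with h | h
  · rw [max_eq_right h, max_eq_right (add_le_add h le_rfl)]
  · rw [max_eq_left h, max_eq_left (add_le_add h le_rfl)]

end arith

/-- degree functions extend to localizations -/
theorem loc_deg {B A : Type} [CommRing B] [IsDomain B] [CommRing A] [Algebra B A] (M : Submonoid B)
    [IsLocalization M A] (hM : M ≤ nonZeroDivisors B) {deg : B → WithBot ℤ} (h : IsDeg deg) :
    ∃ deg' : A → WithBot ℤ, IsDeg deg' ∧ ∀ b, deg' (algebraMap B A b) = deg b := by
  have hinj : Function.Injective (algebraMap B A) := IsLocalization.injective A hM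
  have hfin : ∀ s : M, ∃ n : ℤ, deg (s : B) = n := by
    intro s
    have h1 : (s : B) ≠ 0 := nonZeroDivisors.ne_zero (hM s.2)
    obtain ⟨n, hn⟩ := WithBot.ne_bot_iff_exists.1 (fun e => h1 ((h.bot _).1 e))
    exact ⟨n, hn.symm⟩
  choose nn hnn using hfin
  have hs : ∀ a : A, ∃ (b : B) (s : M), a * algebraMap B A s = algebraMap B A b := by
    intro a
    obtain ⟨⟨b, s⟩, hbs⟩ := IsLocalization.surj M a
    exact ⟨b, s, hbs⟩
  choose nu de hnd using hs
  obtain ⟨deg', hdeg'⟩ : ∃ deg' : A → WithBot ℤ, ∀ a, deg' a = deg (nu a) + ((-nn (de a) : ℤ) : WithBot ℤ) :=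
    ⟨_, fun a => rfl⟩
  have h0 : ∀ a, deg' a + (nn (de a) : WithBot ℤ) = deg (nu a) := by
    intro a
    rw [hdeg', add_assoc, ← WithBot.coe_add, neg_add_cancel, WithBot.coe_zero, add_zero]
  have key : ∀ (a : A) (b : B) (s : M), a * algebraMap B A s = algebraMap B A b →
      deg' a + (nn s : WithBot ℤ) = deg b := by
    intro a b s hab
    have e1 : nu a * s = b * de a := by
      apply hinj
      rw [map_mul, map_mul, ← hnd, ← hab]
      ring
    have e2 := congrArg deg e1
    rw [h.mul, h.mul, hnn, hnn, ← h0] at e2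
    apply wcancel (nn (de a))
    rw [← e2]
    ac_rfl
  refine ⟨deg', ⟨?_, ?_, ?_⟩, ?_⟩
  · intro a
    constructor
    · intro ha
      have e1 := h0 a
      rw [ha, WithBot.bot_add] at e1
      have e2 := (h.bot _).1 e1.symm
      have e3 := hnd a
      rw [e2, map_zero] at e3
      have e4 : (de a : B) ∈ nonZeroDivisors B := hM (de a).2
      exact (IsLocalization.map_units A (de a)).mul_left_eq_zero.1 e3
    · rintro rfl
      have e1 := key 0 0 1 (by rw [zero_mul, map_zero])
      rw [(h.bot 0).2 rfl] at e1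
      rcases WithBot.add_eq_bot.1 e1 with e2 | e2
      · exact e2
      · exact absurd e2 WithBot.coe_ne_bot
  · intro a a'
    have e1 := key (a * a') (nu a * nu a') (de a * de a') (by
      rw [Submonoid.coe_mul, map_mul, map_mul, ← hnd, ← hnd]
      ring)
    have e2 : nn (de a * de a') = nn (de a) + nn (de a') := by
      have := hnn (de a * de a')
      rw [Submonoid.coe_mul, h.mul, hnn, hnn, ← WithBot.coe_add, WithBot.coe_inj] at this
      exact this.symm
    rw [h.mul, ← h0, ← h0, e2] at e1
    apply wcancel (nn (de a) + nn (de a'))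
    rw [e1, WithBot.coe_add]
    ac_rfl
  · intro a a'
    have e1 := key (a + a') (nu a * de a' + nu a' * de a) (de a * de a') (by
      rw [Submonoid.coe_mul, map_mul, map_add, map_mul, map_mul, ← hnd, ← hnd]
      ring)
    have e2 : nn (de a * de a') = nn (de a) + nn (de a') := by
      have := hnn (de a * de a')
      rw [Submonoid.coe_mul, h.mul, hnn, hnn, ← WithBot.coe_add, WithBot.coe_inj] at this
      exact this.symm
    have e3 := h.add (nu a * de a') (nu a' * de a)
    rw [← e1, h.mul, h.mul, hnn, hnn, ← h0, ← h0, e2] at e3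
    apply wcancel_le (nn (de a) + nn (de a'))
    rw [← wmax_add]
    refine e3.trans (le_of_eq ?_)
    rw [WithBot.coe_add]
    congr 1
    · ac_rfl
    · ac_rfl
  · intro b
    have e1 := key (algebraMap B A b) b 1 (by simp)
    have e2 : nn (1 : M) = 0 := by
      have := hnn (1 : M)
      rw [Submonoid.coe_one, h.one, ← WithBot.coe_zero, WithBot.coe_inj] at this
      exact this.symm
    rw [e2, WithBot.coe_zero, add_zero] at e1
    exact e1

section ord

variable {B : Type} [CommRing B] [IsDomain B] [WfDvdMonoid B]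

open Classical in
/-- minus the order of vanishing along `f` -/
noncomputable def od (f : B) (b : B) : WithBot ℤ :=
  if b = 0 then ⊥ else ((-(multiplicity f b : ℤ) : ℤ) : WithBot ℤ)

theorem od_zero (f : B) : od f 0 = ⊥ := if_pos rfl

theorem od_ne {f b : B} (hb : b ≠ 0) : od f b = ((-(multiplicity f b : ℤ) : ℤ) : WithBot ℤ) :=
  if_neg hb

theorem od_isDeg {f : B} (hf : Prime f) : IsDeg (od f) where
  bot b := by
    constructor
    · intro hb
      by_contra hne
      rw [od_ne hne] at hb
      exact WithBot.coe_ne_bot hb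
    · rintro rfl
      exact od_zero f
  mul a b := by
    by_cases ha : a = 0
    · rw [ha, zero_mul, od_zero, WithBot.bot_add]
    by_cases hb : b = 0
    · rw [hb, mul_zero, od_zero, WithBot.add_bot]
    rw [od_ne ha, od_ne hb, od_ne (mul_ne_zero ha hb),
      multiplicity_mul hf (FiniteMultiplicity.of_prime_left hf (mul_ne_zero ha hb)),
      ← WithBot.coe_add]
    congr 1
    push_cast
    ring
  add a b := by
    by_cases hab : a + b = 0
    · rw [hab, od_zero]
      exact bot_le
    by_cases ha : a = 0
    · rw [ha, zero_add]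
      exact le_max_right _ _
    by_cases hb : b = 0
    · rw [hb, add_zero]
      exact le_max_left _ _
    rw [od_ne ha, od_ne hb, od_ne hab, ← WithBot.coe_max, WithBot.coe_le_coe]
    have h1 : min (multiplicity f a) (multiplicity f b) ≤ multiplicity f (a + b) := by
      rw [← (FiniteMultiplicity.of_prime_left hf hab).pow_dvd_iff_le_multiplicity]
      exact dvd_add (pow_dvd_of_le_multiplicity (min_le_left _ _))
        (pow_dvd_of_le_multiplicity (min_le_right _ _))
    omega

end ord

/-- **inverting one prime element** -/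
theorem away_mem {C : ∀ (G : Type) [Group G], Prop} (hC : ClosedE C) (hcat : CatC C)
    (hsol : ∀ (S : Type) [Group S], Group.IsSolvable S → C S)
    (K : Type) {B A : Type} [Field K] (p : ℕ) [Fact p.Prime] [Algebra (ZMod p) K]
    [Algebra.IsAlgebraic (ZMod p) K] [CommRing B] [IsDomain B] [Algebra K B]
    [Algebra.FiniteType K B] [CommRing A] [Algebra B A] [Algebra K A] [IsScalarTower K B A] (f : B)
    (hf : Prime f) [IsLocalization.Away f A] {deg : B → WithBot ℤ} (h : IsDeg deg)
    (hfd : ∀ n : ℕ, ∃ V : Submodule K B, FiniteDimensional K V ∧ ∀ x, deg x ≤ n → x ∈ V) :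
    C (GL (Fin 2) A) := by
  have hM : Submonoid.powers f ≤ nonZeroDivisors B :=
    powers_le_nonZeroDivisors_of_noZeroDivisors hf.ne_zero
  have hn : IsNoetherianRing B := Algebra.FiniteType.isNoetherianRing K B
  have hdom : IsDomain A := IsLocalization.isDomain_of_le_nonZeroDivisors A hM
  have hinj : Function.Injective (algebraMap B A) := IsLocalization.injective A hM
  have hft : Algebra.FiniteType B A := IsLocalization.finiteType_of_monoid_fg (Submonoid.powers f) A
  have hft2 : Algebra.FiniteType K A := Algebra.FiniteType.trans (S := B) inferInstance hft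
  obtain ⟨deg1, h1, h1'⟩ := loc_deg (A := A) (Submonoid.powers f) hM h
  obtain ⟨deg2, h2, h2'⟩ := loc_deg (A := A) (Submonoid.powers f) hM (od_isDeg hf)
  refine alg_mem hC hcat hsol K p h1 h2 fun n => ?_
  have hfn : algebraMap B A f ≠ 0 := fun e => hf.ne_zero (hinj (by rw [e, map_zero]))
  obtain ⟨e, he⟩ := WithBot.ne_bot_iff_exists.1
    (fun e => (pow_ne_zero n hf.ne_zero) ((h.bot (f ^ n)).1 e))
  obtain ⟨V, hV, hVn⟩ := hfd (n + e).toNat
  let φ : B →ₗ[K] A :=
    { toFun := fun c => algebraMap B A c * IsLocalization.Away.invSelf f ^ n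
      map_add' := fun a b => by rw [map_add, add_mul]
      map_smul' := fun c b => by
        rw [Algebra.smul_def, map_mul, ← IsScalarTower.algebraMap_apply, RingHom.id_apply,
          Algebra.smul_def, mul_assoc] }
  refine ⟨V.map φ, inferInstance, fun x hx1 hx2 => ?_⟩
  -- `x f ^ n` is in `B`
  obtain ⟨c, hc⟩ : ∃ c : B, x * algebraMap B A f ^ n = algebraMap B A c := by
    obtain ⟨m, b, hb⟩ := IsLocalization.Away.surj f x
    rcases le_total m n with hmn | hmn
    · refine ⟨b * f ^ (n - m), ?_⟩
      rw [map_mul, ← hb, map_pow, mul_assoc, ← pow_add, Nat.add_sub_cancel' hmn]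
    · by_cases hb0 : b = 0
      · refine ⟨0, ?_⟩
        rw [hb0, map_zero] at hb
        rcases mul_eq_zero.1 hb with hx | hx
        · rw [hx, zero_mul, map_zero]
        · exact absurd hx (pow_ne_zero m hfn)
      · have e1 := congrArg deg2 hb
        rw [h2.mul, ← map_pow, h2', h2', od_ne hb0, od_ne (pow_ne_zero m hf.ne_zero)] at e1
        have e2 : x ≠ 0 := by
          rintro rfl
          rw [zero_mul] at hb
          exact hb0 (hinj (by rw [← hb, map_zero]))
        obtain ⟨y, hy⟩ := WithBot.ne_bot_iff_exists.1 (fun e => e2 ((h2.bot x).1 e))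
        rw [← hy, ← WithBot.coe_add, WithBot.coe_inj] at e1
        have e3 : y ≤ n := by
          rw [← hy] at hx2
          exact_mod_cast hx2
        have e4 : m ≤ multiplicity f (f ^ m) := by
          rw [← (FiniteMultiplicity.of_prime_left hf
            (pow_ne_zero m hf.ne_zero)).pow_dvd_iff_le_multiplicity]
        have e5 : f ^ (m - n) ∣ b := pow_dvd_of_le_multiplicity (by omega)
        obtain ⟨c, rfl⟩ := e5
        refine ⟨c, ?_⟩
        rw [map_mul, map_pow] at hb
        apply mul_left_cancel₀ (pow_ne_zero (m - n) hfn)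
        rw [← hb, mul_comm x, ← mul_assoc, ← pow_add, Nat.sub_add_cancel hmn, mul_comm]
  have e6 : c ∈ V := by
    apply hVn
    have e7 := congrArg deg1 hc
    rw [h1.mul, ← map_pow, h1', h1', ← he] at e7
    rw [← e7]
    refine (add_le_add hx1 le_rfl).trans ?_
    have e8 : (n : ℤ) + e ≤ ((n + e).toNat : ℤ) := Int.self_le_toNat _
    exact_mod_cast e8
  refine ⟨c, e6, ?_⟩
  show algebraMap B A c * IsLocalization.Away.invSelf f ^ n = x
  rw [← hc, mul_assoc, ← mul_pow, IsLocalization.Away.mul_invSelf, one_pow, mul_one]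

section mv

open MvPolynomial

variable (σ K : Type) [Field K]

open Classical in
/-- the total degree -/
noncomputable def td (q : MvPolynomial σ K) : WithBot ℤ :=
  if q = 0 then ⊥ else ((q.totalDegree : ℤ) : WithBot ℤ)

variable {σ K}

theorem td_zero : td σ K 0 = ⊥ := if_pos rfl

theorem td_ne {q : MvPolynomial σ K} (hq : q ≠ 0) : td σ K q = ((q.totalDegree : ℤ) : WithBot ℤ) :=
  if_neg hq

theorem td_isDeg : IsDeg (td σ K) where
  bot q := by
    constructor
    · intro hq
      by_contra hne
      rw [td_ne hne] at hq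
      exact WithBot.coe_ne_bot hq
    · rintro rfl
      exact td_zero
  mul a b := by
    by_cases ha : a = 0
    · rw [ha, zero_mul, td_zero, WithBot.bot_add]
    by_cases hb : b = 0
    · rw [hb, mul_zero, td_zero, WithBot.add_bot]
    rw [td_ne ha, td_ne hb, td_ne (mul_ne_zero ha hb), totalDegree_mul_of_isDomain ha hb,
      ← WithBot.coe_add]
    congr 1
  add a b := by
    by_cases hab : a + b = 0
    · rw [hab, td_zero]
      exact bot_le
    by_cases ha : a = 0
    · rw [ha, zero_add]
      exact le_max_right _ _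
    by_cases hb : b = 0
    · rw [hb, add_zero]
      exact le_max_left _ _
    rw [td_ne ha, td_ne hb, td_ne hab, ← WithBot.coe_max, WithBot.coe_le_coe]
    have := totalDegree_add a b
    exact_mod_cast this

theorem mv_mem {C : ∀ (G : Type) [Group G], Prop} (hC : ClosedE C) (hcat : CatC C)
    (hsol : ∀ (S : Type) [Group S], Group.IsSolvable S → C S) [Finite σ]
    (p : ℕ) [Fact p.Prime] [Algebra (ZMod p) K] [Algebra.IsAlgebraic (ZMod p) K]
    (f : MvPolynomial σ K) (hf : Irreducible f) : C (GL (Fin 2) (Localization.Away f)) := by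
  refine away_mem hC hcat hsol K p f hf.prime (td_isDeg (σ := σ) (K := K)) fun n => ?_
  refine ⟨restrictTotalDegree σ K n, inferInstance, fun x hx => ?_⟩
  rw [mem_restrictTotalDegree]
  by_cases h0 : x = 0
  · rw [h0, totalDegree_zero]
    exact Nat.zero_le n
  · rw [td_ne h0] at hx
    exact_mod_cast hx

end mv

end Pool.Agent.Run7.h390.TP
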