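import Pool.Agent.Run7.h390.TP.Two
import Pool.Agent.N509.TX.Fg

/-!
# `GL_2` of rings with two degree functions

Owner helper390.
-/

set_option autoImplicit false

namespace Pool.Agent.Run7.h390.TP

open _root_.Run7.h909.GT _root_.Run7.h909.TD
open Pool.Agent.Y110.FJ (ClosedE)

theorem fin_mats {A : Type} {F : Set A} (hF : F.Finite) :
    {M : Fin 2 → Fin 2 → A | ∀ i j, M i j ∈ F}.Finite :=
  (Set.Finite.pi' fun _ : Fin 2 => Set.Finite.pi' fun _ : Fin 2 => hF).subset fun _ hM => hM

theorem fin_gl {A : Type} [CommRing A] {F : Set A} (hF : F.Finite) :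
    {g : GL (Fin 2) A | ∀ i j, g i j ∈ F}.Finite := by
  refine Set.Finite.of_finite_image (f := fun g : GL (Fin 2) A =>
    (fun i j => g i j : Fin 2 → Fin 2 → A)) ((fin_mats hF).subset ?_) ?_
  · rintro _ ⟨g, hg, rfl⟩
    exact hg
  · intro g _ k _ hgk
    apply Units.ext
    exact hgk

/-- an element all of whose powers are in a finite set has finite order -/
theorem tor_of_fin {G : Type} [Group G] {x : G} {F : Set G} (hF : F.Finite)
    (hx : ∀ k : ℕ, x ^ k ∈ F) : ∃ m : ℕ, 0 < m ∧ x ^ m = 1 := by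
  have : Finite F := hF.to_subtype
  obtain ⟨a, b, hab, he⟩ := Finite.exists_ne_map_eq_of_infinite (fun k : ℕ => (⟨x ^ k, hx k⟩ : F))
  have he' : x ^ a = x ^ b := congrArg Subtype.val he
  rcases lt_or_gt_of_ne hab with h | h
  · refine ⟨b - a, by omega, ?_⟩
    rw [pow_sub x h.le, he', mul_inv_cancel]
  · refine ⟨a - b, by omega, ?_⟩
    rw [pow_sub x h.le, he', mul_inv_cancel]

/-- **rings with two degree functions such that in finitely generated subrings only finitely many
elements are bounded with respect to both** -/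
theorem fin_mem {C : ∀ (G : Type) [Group G], Prop} (hC : ClosedE C) (hcat : CatC C)
    {A : Type} [CommRing A] [Nontrivial A] {deg1 deg2 : A → WithBot ℤ} (h1 : IsDeg deg1)
    (h2 : IsDeg deg2)
    (hfin : ∀ (E : Set A) (n : ℕ), E.Finite →
      {a : A | a ∈ Subring.closure E ∧ deg1 a ≤ n ∧ deg2 a ≤ n}.Finite) : C (GL (Fin 2) A) := by
  refine Pool.Agent.N509.TX.of_fg hC fun H hH => ?_
  obtain ⟨S, hS⟩ := (Group.fg_iff_subgroup_fg H).1 hH
  obtain ⟨E, hE⟩ : ∃ E : Set A, E = ⋃ g ∈ S, ⋃ i : Fin 2, ⋃ j : Fin 2,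
      ({g i j, (g⁻¹ : GL (Fin 2) A) i j} : Set A) := ⟨_, rfl⟩
  have hEf : E.Finite := by
    rw [hE]
    refine S.finite_toSet.biUnion fun g _ => ?_
    exact Set.finite_iUnion fun i => Set.finite_iUnion fun j => Set.toFinite _
  obtain ⟨A0, hA0⟩ : ∃ A0 : Subring A, A0 = Subring.closure E := ⟨_, rfl⟩
  have hmem : ∀ g ∈ H, (∀ i j, g i j ∈ A0) ∧ ∀ i j, (g⁻¹ : GL (Fin 2) A) i j ∈ A0 := by
    intro g hg
    rw [← hS] at hg
    have hmul : ∀ x y : GL (Fin 2) A, (∀ i j, x i j ∈ A0) → (∀ i j, y i j ∈ A0) →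
        ∀ i j, (x * y : GL (Fin 2) A) i j ∈ A0 := by
      intro x y hx hy i j
      show ((x * y : GL (Fin 2) A) : Matrix (Fin 2) (Fin 2) A) i j ∈ A0
      rw [Units.val_mul, Matrix.mul_apply, Fin.sum_univ_two]
      exact A0.add_mem (A0.mul_mem (hx _ _) (hy _ _)) (A0.mul_mem (hx _ _) (hy _ _))
    induction hg using Subgroup.closure_induction with
    | mem x hx =>
      have h3 : ∀ i j, x i j ∈ E ∧ (x⁻¹ : GL (Fin 2) A) i j ∈ E := by
        intro i j
        rw [hE]
        simp only [Set.mem_iUnion]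
        exact ⟨⟨x, hx, i, j, Or.inl rfl⟩, ⟨x, hx, i, j, Or.inr rfl⟩⟩
      rw [hA0]
      exact ⟨fun i j => Subring.subset_closure (h3 i j).1,
        fun i j => Subring.subset_closure (h3 i j).2⟩
    | one =>
      have h3 : ∀ i j, (1 : GL (Fin 2) A) i j ∈ A0 := by
        intro i j
        show ((1 : GL (Fin 2) A) : Matrix (Fin 2) (Fin 2) A) i j ∈ A0
        rw [Units.val_one, Matrix.one_apply]
        split_ifs
        · exact A0.one_mem
        · exact A0.zero_mem
      exact ⟨h3, by rw [inv_one]; exact h3⟩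
    | mul x y _ _ hx hy =>
      refine ⟨hmul x y hx.1 hy.1, ?_⟩
      rw [mul_inv_rev]
      exact hmul _ _ hy.2 hx.2
    | inv x _ hx =>
      refine ⟨hx.2, ?_⟩
      rw [inv_inv]
      exact hx.1
  have hbd : ∀ n : ℕ, {g : GL (Fin 2) A | ∀ i j, g i j ∈
      {a : A | a ∈ A0 ∧ deg1 a ≤ n ∧ deg2 a ≤ n}}.Finite := fun n => by
    rw [hA0]
    exact fin_gl (hfin E n hEf)
  have hnz : ∀ g ∈ H, ∀ (k : ℕ) i j, (nz g ^ k : GL (Fin 2) A) i j ∈ A0 := by
    intro g hg k i j
    have e1 : (((dt g)⁻¹ ^ k : Aˣ) : A) =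
        ((g⁻¹ : GL (Fin 2) A) : Matrix (Fin 2) (Fin 2) A).det ^ k := by
      rw [Units.val_pow_eq_pow_val, ← map_inv, dt_val]
    rw [nz_pow, sc_mul_entry, e1]
    refine A0.mul_mem ((hmem _ (H.pow_mem hg (2 * k))).1 i j) (A0.pow_mem ?_ k)
    rw [Matrix.det_fin_two]
    have h3 := (hmem g hg).2
    exact A0.sub_mem (A0.mul_mem (h3 _ _) (h3 _ _)) (A0.mul_mem (h3 _ _) (h3 _ _))
  refine core hC hcat h1 h2 H.subtype ?_ ?_
  · intro g n hn
    exact tor_of_fin (hbd n) fun k i j => ⟨hnz g g.2 k i j, hn k i j⟩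
  · intro n
    refine ⟨Multiplicative ℤ, inferInstance, 1, hC.base.int, ?_⟩
    refine Set.Finite.of_finite_image (f := H.subtype) ((hbd n).subset ?_)
      H.subtype_injective.injOn
    rintro _ ⟨g, ⟨hg, -⟩, rfl⟩
    exact fun i j => ⟨(hmem g g.2).1 i j, hg i j⟩

section alg

/-- matrices all of whose powers are in a finite dimensional space over a field which is algebraic over a
finite field have finite order -/
theorem tor_alg (K : Type) {A : Type} [Field K] (p : ℕ) [Fact p.Prime] [Algebra (ZMod p) K]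
    [Algebra.IsAlgebraic (ZMod p) K] [CommRing A] [Algebra K A] (V : Submodule K A)
    [FiniteDimensional K V] (x : GL (Fin 2) A) (hx : ∀ (k : ℕ) i j, (x ^ k : GL (Fin 2) A) i j ∈ V) :
    ∃ m : ℕ, 0 < m ∧ x ^ m = 1 := by
  let _ : Algebra (ZMod p) A := ((algebraMap K A).comp (algebraMap (ZMod p) K)).toAlgebra
  have ht : IsScalarTower (ZMod p) K A := IsScalarTower.of_algebraMap_eq fun x => rfl
  have ht2 : IsScalarTower (ZMod p) K (Matrix (Fin 2) (Fin 2) A) := inferInstance
  obtain ⟨W, hW⟩ : ∃ W : Submodule K (Matrix (Fin 2) (Fin 2) A), ∀ M, M ∈ W ↔ ∀ i j, M i j ∈ V :=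
    ⟨{ carrier := {M | ∀ i j, M i j ∈ V}
       add_mem' := fun ha hb i j => V.add_mem (ha i j) (hb i j)
       zero_mem' := fun i j => V.zero_mem
       smul_mem' := fun c M hM i j => V.smul_mem c (hM i j) }, fun M => Iff.rfl⟩
  have hWf : FiniteDimensional K W := by
    let φ : W →ₗ[K] (Fin 2 → Fin 2 → V) :=
      { toFun := fun M i j => ⟨M.1 i j, (hW M.1).1 M.2 i j⟩
        map_add' := fun M N => rfl
        map_smul' := fun c M => rfl }
    refine FiniteDimensional.of_injective φ ?_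
    intro M N hMN
    apply Subtype.ext
    ext i j
    exact congrArg Subtype.val (congrFun (congrFun hMN i) j)
  have hint : IsIntegral K (x : Matrix (Fin 2) (Fin 2) A) := by
    refine IsIntegral.of_mem_of_fg (Algebra.adjoin K {(x : Matrix (Fin 2) (Fin 2) A)}) ?_ _
      (Algebra.self_mem_adjoin_singleton K _)
    have hle : Subalgebra.toSubmodule (Algebra.adjoin K {(x : Matrix (Fin 2) (Fin 2) A)}) ≤ W := by
      rw [Algebra.adjoin_eq_span, Submodule.span_le]
      intro M hM
      obtain ⟨k, rfl⟩ := Submonoid.mem_closure_singleton.1 hM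
      refine (hW _).2 fun i j => ?_
      have := hx k i j
      rwa [← Units.val_pow_eq_pow_val]
    have := Submodule.finiteDimensional_of_le hle
    exact Module.Finite.iff_fg.1 this
  have hint2 : IsIntegral (ZMod p) (x : Matrix (Fin 2) (Fin 2) A) := isIntegral_trans _ hint
  have hfg := hint2.fg_adjoin_singleton
  have hfin : Module.Finite (ZMod p) (Algebra.adjoin (ZMod p) {(x : Matrix (Fin 2) (Fin 2) A)}) :=
    Module.Finite.iff_fg.2 hfg
  have hfin2 : Finite (Algebra.adjoin (ZMod p) {(x : Matrix (Fin 2) (Fin 2) A)}) :=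
    Module.finite_of_finite (ZMod p)
  refine tor_of_fin (F := {g : GL (Fin 2) A | (g : Matrix (Fin 2) (Fin 2) A) ∈
    Algebra.adjoin (ZMod p) {(x : Matrix (Fin 2) (Fin 2) A)}}) ?_ ?_
  · refine Set.Finite.of_finite_image (f := fun g : GL (Fin 2) A =>
      (g : Matrix (Fin 2) (Fin 2) A)) ((Set.toFinite (Algebra.adjoin (ZMod p)
        {(x : Matrix (Fin 2) (Fin 2) A)} : Set (Matrix (Fin 2) (Fin 2) A))).subset ?_) ?_
    · rintro _ ⟨g, hg, rfl⟩
      exact hg
    · intro g _ k _ hgk
      exact Units.ext hgk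
  · intro k
    show ((x ^ k : GL (Fin 2) A) : Matrix (Fin 2) (Fin 2) A) ∈
      Algebra.adjoin (ZMod p) {(x : Matrix (Fin 2) (Fin 2) A)}
    rw [Units.val_pow_eq_pow_val]
    exact Subalgebra.pow_mem _ (Algebra.self_mem_adjoin_singleton _ _) k

/-- **affine domains over algebraic extensions of finite fields with two degree functions** -/
theorem alg_mem {C : ∀ (G : Type) [Group G], Prop} (hC : ClosedE C) (hcat : CatC C)
    (hsol : ∀ (S : Type) [Group S], Group.IsSolvable S → C S)
    (K : Type) {A : Type} [Field K] (p : ℕ) [Fact p.Prime] [Algebra (ZMod p) K]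
    [Algebra.IsAlgebraic (ZMod p) K] [CommRing A] [IsDomain A] [Algebra K A]
    [Algebra.FiniteType K A] {deg1 deg2 : A → WithBot ℤ} (h1 : IsDeg deg1) (h2 : IsDeg deg2)
    (hfd : ∀ n : ℕ, ∃ V : Submodule K A, FiniteDimensional K V ∧ ∀ x, deg1 x ≤ n → deg2 x ≤ n →
      x ∈ V) :
    C (GL (Fin 2) A) := by
  have hn : IsNoetherianRing A := Algebra.FiniteType.isNoetherianRing K A
  obtain ⟨J, hJ⟩ := Ideal.exists_maximal A
  let _ : Field (A ⧸ J) := Ideal.Quotient.field J
  have hft : Algebra.FiniteType K (A ⧸ J) :=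
    Algebra.FiniteType.of_surjective (Ideal.Quotient.mkₐ K J) (Ideal.Quotient.mkₐ_surjective K J)
  have hfin : Module.Finite K (A ⧸ J) := finite_of_finite_type_of_isJacobsonRing K (A ⧸ J)
  let _ : Algebra (ZMod p) (A ⧸ J) := ((algebraMap K (A ⧸ J)).comp (algebraMap (ZMod p) K)).toAlgebra
  have : IsScalarTower (ZMod p) K (A ⧸ J) := IsScalarTower.of_algebraMap_eq fun x => rfl
  have : Algebra.IsAlgebraic (ZMod p) (A ⧸ J) := Algebra.IsAlgebraic.trans (ZMod p) K (A ⧸ J)
  have hJC : C (GL (Fin 2) (A ⧸ J)) := algfin_mem hC (A ⧸ J) p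
  refine core hC hcat h1 h2 (MonoidHom.id (GL (Fin 2) A)) ?_ ?_
  · intro g n hgn
    obtain ⟨V, hV, hVn⟩ := hfd n
    exact tor_alg K p V (nz g) fun k i j => hVn _ (hgn k i j).1 (hgn k i j).2
  · intro n
    obtain ⟨V, hV, hVn⟩ := hfd n
    obtain ⟨F, hF⟩ : ∃ F : ℕ →o (Submodule K V)ᵒᵈ, ∀ k, F k = OrderDual.toDual
        (((J ^ k).restrictScalars K).comap V.subtype) :=
      ⟨⟨fun k => OrderDual.toDual (((J ^ k).restrictScalars K).comap V.subtype), fun a b hab => by
        show ((J ^ b).restrictScalars K).comap V.subtype ≤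
          ((J ^ a).restrictScalars K).comap V.subtype
        intro x hx
        exact Ideal.pow_le_pow_right hab hx⟩, fun k => rfl⟩
    obtain ⟨k, hk⟩ := IsArtinian.monotone_stabilizes F
    have hz : ∀ x ∈ J ^ k, x ∈ V → x = 0 := by
      intro x hx hxV
      have h1 : ∀ m, x ∈ J ^ m := by
        intro m
        by_cases hm : k ≤ m
        · have h2 := hk m hm
          rw [hF, hF] at h2
          have h3 : (⟨x, hxV⟩ : V) ∈ ((J ^ k).restrictScalars K).comap V.subtype := hx
          have h4 : ((J ^ k).restrictScalars K).comap V.subtype =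
            ((J ^ m).restrictScalars K).comap V.subtype := congrArg OrderDual.ofDual h2
          rw [h4] at h3
          exact h3
        · exact Ideal.pow_le_pow_right (not_le.1 hm).le hx
      have h2 : x ∈ (⨅ i : ℕ, J ^ i) := by
        rw [Ideal.mem_iInf]
        exact h1
      rw [Ideal.iInf_pow_eq_bot_of_isDomain J hJ.ne_top, Ideal.mem_bot] at h2
      exact h2
    refine ⟨_, _, Matrix.GeneralLinearGroup.map (Ideal.Quotient.mk (J ^ (k + 1))),
      pow_mem hC hsol J hJC k, (Set.finite_singleton (1 : GL (Fin 2) A)).subset ?_⟩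
    rintro g ⟨hg, hg1⟩
    rw [Set.mem_singleton_iff]
    have key : ∀ i j, g i j = (1 : Matrix (Fin 2) (Fin 2) A) i j := by
      intro i j
      rw [← sub_eq_zero]
      have hd : ∀ {deg : A → WithBot ℤ} (h : IsDeg deg), deg ((1 : Matrix (Fin 2) (Fin 2) A) i j) ≤
          n := by
        intro deg h
        rw [Matrix.one_apply]
        split_ifs
        · rw [h.one]
          exact_mod_cast Nat.zero_le n
        · rw [(h.bot 0).2 rfl]
          exact bot_le
      refine hz _ (Ideal.pow_le_pow_right (Nat.le_succ k) ?_) (hVn _ ?_ ?_)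
      · rw [← Ideal.Quotient.eq_zero_iff_mem, map_sub, sub_eq_zero]
        have h3 := congrArg (fun u : GL (Fin 2) (A ⧸ J ^ (k + 1)) => u i j) hg1
        have h4 : (Ideal.Quotient.mk (J ^ (k + 1))) (g i j) =
          (Matrix.GeneralLinearGroup.map (Ideal.Quotient.mk (J ^ (k + 1))) g) i j := rfl
        rw [h4]
        refine h3.trans ?_
        show ((1 : GL (Fin 2) (A ⧸ J ^ (k + 1))) :
          Matrix (Fin 2) (Fin 2) (A ⧸ J ^ (k + 1))) i j = _
        rw [Units.val_one, Matrix.one_apply, Matrix.one_apply]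
        split_ifs
        · rw [map_one]
        · rw [map_zero]
      · exact (h1.sub _ _).trans (max_le (hg i j).1 (hd h1))
      · exact (h2.sub _ _).trans (max_le (hg i j).2 (hd h2))
    apply Units.ext
    ext i j
    rw [Units.val_one]
    exact key i j

end alg

end Pool.Agent.Run7.h390.TP
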