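import Pool.Agent.Run7.h909.TD.Trees
import Pool.Agent.Run7.h909.GT.Fin

/-!
# Groups with two integral hyperbolic length functions

Owner helper390.
-/

set_option autoImplicit false

namespace Pool.Agent.Run7.h390.TP

open _root_.Run7.h909.GT _root_.Run7.h909.TD
open Pool.Agent.Y110.FJ (ClosedE)

section len

variable {S : Type} {d : S → S → ℤ}

theorem vt_lip (h : ZH d) (f : Vt d) (s t : S) : f.1 s ≤ f.1 t + d s t := by
  obtain ⟨f, x, y, n, hn, hn', rfl⟩ := f
  show pt d x y n s ≤ pt d x y n t + d s t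
  have h1 := h.tri s t x
  have h2 := h.tri s t y
  unfold pt
  omega

variable {G : Type} [Group G] [MulAction G S]

/-- an element which acts trivially on the metric space acts trivially on the tree -/
theorem act_triv (h : ZH d) (hd : ∀ (g : G) (x y : S), d (g • x) (g • y) = d x y) (g : G)
    (hg : ∀ s, d s (g • s) = 0) (v : Vt d) : (actV hd).smul g v = v := by
  apply Subtype.ext
  funext s
  show v.1 (g⁻¹ • s) = v.1 s
  have h1 := hg (g⁻¹ • s)
  rw [smul_inv_smul] at h1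
  have h2 := vt_lip h v (g⁻¹ • s) s
  have h3 := vt_lip h v s (g⁻¹ • s)
  have h4 := h.symm s (g⁻¹ • s)
  omega

/-- an element which fixes a vertex moves all its images of `o` by a bounded amount -/
theorem bd_of_fix (h : ZH d) (hd : ∀ (g : G) (x y : S), d (g • x) (g • y) = d x y) (o : S) (v : Vt d)
    (g : G) (hg : (actV hd).smul g v = v) : d o (g • o) ≤ 2 * v.1 o := by
  have h1 : v.1 (g⁻¹ • o) = v.1 o := congrFun (congrArg Subtype.val hg) o
  have h2 := le_add h v o (g⁻¹ • o)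
  rw [h1] at h2
  have h3 := hd g o (g⁻¹ • o)
  rw [smul_inv_smul] at h3
  have h4 := h.symm o (g • o)
  omega

end len

/-- **groups with two integral hyperbolic length functions** -/
theorem two_len {C : ∀ (G : Type) [Group G], Prop} (hC : ClosedE C) (hcat : CatC C)
    {G S1 S2 : Type} [Group G] [MulAction G S1] [MulAction G S2] {d1 : S1 → S1 → ℤ}
    {d2 : S2 → S2 → ℤ} (h1 : ZH d1) (h2 : ZH d2)
    (hd1 : ∀ (g : G) (x y : S1), d1 (g • x) (g • y) = d1 x y)
    (hd2 : ∀ (g : G) (x y : S2), d2 (g • x) (g • y) = d2 x y) (o1 : S1) (o2 : S2)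
    (hT : ∀ g : G, (∃ n : ℕ, ∀ k : ℕ, d1 o1 (g ^ k • o1) ≤ n ∧ d2 o2 (g ^ k • o2) ≤ n) →
      ∃ m : ℕ, 0 < m ∧ (∀ s, d1 s (g ^ m • s) = 0) ∧ ∀ s, d2 s (g ^ m • s) = 0)
    (hP : ∀ n : ℕ, ∃ (P : Type) (_ : Group P) (f : G →* P), C P ∧
      {g : G | d1 o1 (g • o1) ≤ n ∧ d2 o2 (g • o2) ≤ n ∧ f g = 1}.Finite) : C G := by
  let a1 : MulAction G (Vt d1) := actV hd1
  let a2 : MulAction G (Vt d2) := actV hd2
  have hn1 : Nonempty S1 := ⟨o1⟩
  have hn2 : Nonempty S2 := ⟨o2⟩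
  have hp1 : ∀ (g : G) (v : Vt d1), g • v = v → ∀ k : ℕ, g ^ k • v = v := by
    intro g v hg k
    induction k with
    | zero => rw [pow_zero, one_smul]
    | succ k ih => rw [pow_succ, mul_smul, hg, ih]
  have hp2 : ∀ (g : G) (v : Vt d2), g • v = v → ∀ k : ℕ, g ^ k • v = v := by
    intro g v hg k
    induction k with
    | zero => rw [pow_zero, one_smul]
    | succ k ih => rw [pow_succ, mul_smul, hg, ih]
  refine trees (V1 := Vt d1) (V2 := Vt d2) (T1 := TG d1) (T2 := TG d2) hC hcat (TG_tree h1)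
    (TG_tree h2) ?_ ?_ ?_ ?_
  · intro g u v huv s
    exact huv (g⁻¹ • s)
  · intro g u v huv s
    exact huv (g⁻¹ • s)
  · intro x y g hx hy
    obtain ⟨m, hm, hm1, hm2⟩ := hT g ⟨(2 * x.1 o1 + 2 * y.1 o2).toNat, fun k => by
      have e1 := bd_of_fix h1 hd1 o1 x (g ^ k) (hp1 g x hx k)
      have e2 := bd_of_fix h2 hd2 o2 y (g ^ k) (hp2 g y hy k)
      have e3 := le_add h1 x o1 o1
      have e4 := le_add h2 y o2 o2
      rw [h1.self] at e3
      rw [h2.self] at e4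
      constructor <;> omega⟩
    exact ⟨fun x' _ => ⟨m, hm, act_triv h1 hd1 (g ^ m) hm1 x'⟩,
      fun y' _ => ⟨m, hm, act_triv h2 hd2 (g ^ m) hm2 y'⟩⟩
  · intro x y
    obtain ⟨P, _, f, hCP, hf⟩ := hP (2 * x.1 o1 + 2 * y.1 o2).toNat
    refine ⟨P, _, f, hCP, hf.subset ?_⟩
    rintro g ⟨hx, hy, hfg⟩
    have e1 := bd_of_fix h1 hd1 o1 x g hx
    have e2 := bd_of_fix h2 hd2 o2 y g hy
    have e3 := le_add h1 x o1 o1
    have e4 := le_add h2 y o2 o2
    rw [h1.self] at e3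
    rw [h2.self] at e4
    refine ⟨?_, ?_, hfg⟩
    · omega
    · omega

end Pool.Agent.Run7.h390.TP
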