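import Pool.Agent.Run7.h390.TP.Len

/-!
# Matrices over rings with two degree functions

Owner helper390.
-/

set_option autoImplicit false

namespace Pool.Agent.Run7.h390.TP

open _root_.Run7.h909.GT _root_.Run7.h909.TD
open Pool.Agent.Y110.FJ (ClosedE)

section sc

variable {R : Type} [CommRing R] {deg : R → WithBot ℤ}

/-- the scalar matrices -/
def sc : Rˣ →* GL (Fin 2) R := Units.map (Matrix.scalar (Fin 2) : R →+* _).toMonoidHom

theorem sc_val (u : Rˣ) : ((sc u : GL (Fin 2) R) : Matrix (Fin 2) (Fin 2) R) =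
    Matrix.scalar (Fin 2) (u : R) := rfl

theorem sc_comm (u : Rˣ) (g : GL (Fin 2) R) : sc u * g = g * sc u := by
  apply Units.ext
  rw [Units.val_mul, Units.val_mul, sc_val]
  exact (Matrix.scalar_commute (u : R) (fun r => mul_comm _ _) (g : Matrix (Fin 2) (Fin 2) R))

theorem sc_mul_entry (u : Rˣ) (g : GL (Fin 2) R) (i j : Fin 2) :
    (g * sc u : GL (Fin 2) R) i j = g i j * u := by
  show ((g * sc u : GL (Fin 2) R) : Matrix (Fin 2) (Fin 2) R) i j = _
  rw [Units.val_mul, sc_val, Matrix.scalar_apply, Matrix.mul_diagonal]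

/-- the determinant -/
noncomputable def dt : GL (Fin 2) R →* Rˣ := Matrix.GeneralLinearGroup.det

theorem dt_val (g : GL (Fin 2) R) : ((dt g : Rˣ) : R) = (g : Matrix (Fin 2) (Fin 2) R).det := rfl

theorem dt_sc (u : Rˣ) : dt (sc u) = u ^ 2 := by
  apply Units.ext
  rw [dt_val, sc_val, Matrix.det_fin_two, Matrix.scalar_apply]
  simp
  ring

variable (h : IsDeg deg) [Nontrivial R]
include h

theorem w_mul (a g k : GL (Fin 2) R) : w deg (a * g) (a * k) = w deg a a + w deg g k := by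
  rw [← WithBot.coe_inj, WithBot.coe_add, coe_w h, coe_w h, coe_w h, W_mul h, W_self h]

theorem w_one_one : w deg (1 : GL (Fin 2) R) 1 = 0 := by
  rw [← WithBot.coe_inj, coe_w h, W_self h, Units.val_one, Matrix.det_one, h.one]
  rfl

/-- the degree of the determinant -/
def chi : GL (Fin 2) R →* Multiplicative ℤ where
  toFun g := Multiplicative.ofAdd (w deg g g)
  map_one' := by rw [w_one_one h]; rfl
  map_mul' g k := by rw [w_mul h]; rfl

theorem chi_eq (g : GL (Fin 2) R) : chi h g = 1 ↔ w deg g g = 0 := by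
  show Multiplicative.ofAdd (w deg g g) = 1 ↔ _
  exact ofAdd_eq_one

theorem w_of_dt {g : GL (Fin 2) R} (hg : dt g = 1) : w deg g g = 0 := by
  rw [← WithBot.coe_inj, coe_w h, W_self h, ← dt_val, hg, Units.val_one, h.one]
  rfl

theorem entry_le {g : GL (Fin 2) R} {n : ℕ} (hg : w deg g g = 0) (hn : dd deg 1 g ≤ n)
    (i j : Fin 2) : deg (g i j) ≤ n := by
  refine (le_w_one h g i j).trans ?_
  have h1 := (dd_zh h).nonneg 1 g
  unfold dd at hn h1
  rw [w_one_one h, hg] at hn h1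
  have h2 : w deg 1 g ≤ n := by omega
  exact_mod_cast h2

theorem dd_sc (u : Rˣ) (s : GL (Fin 2) R) : dd deg s (s * sc u) = 0 := by
  have h1 := dd_mul h s 1 (sc u)
  rw [mul_one] at h1
  rw [h1]
  apply le_antisymm _ ((dd_zh h).nonneg _ _)
  have e2 : ((w deg (sc u) (sc u) : ℤ) : WithBot ℤ) = deg (u : R) + deg (u : R) := by
    rw [coe_w h, W_self h, ← dt_val, dt_sc, Units.val_pow_eq_pow_val, pow_two, h.mul]
  have e1 : ((w deg 1 (sc u) : ℤ) : WithBot ℤ) ≤ deg (u : R) := by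
    rw [coe_w h]
    refine Finset.sup_le fun p _ => ?_
    obtain ⟨i, j⟩ := p
    fin_cases i <;> fin_cases j
    · have : cw (1 : GL (Fin 2) R) (sc u) (0, 0) = 0 := by
        simp [cw, sc_val]
      show deg (cw (1 : GL (Fin 2) R) (sc u) (0, 0)) ≤ _
      rw [this, (h.bot 0).2 rfl]
      exact bot_le
    · have : cw (1 : GL (Fin 2) R) (sc u) (0, 1) = u := by
        simp [cw, sc_val]
      show deg (cw (1 : GL (Fin 2) R) (sc u) (0, 1)) ≤ _
      rw [this]
    · have : cw (1 : GL (Fin 2) R) (sc u) (1, 0) = - u := by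
        simp [cw, sc_val]
      show deg (cw (1 : GL (Fin 2) R) (sc u) (1, 0)) ≤ _
      rw [this, h.neg]
    · have : cw (1 : GL (Fin 2) R) (sc u) (1, 1) = 0 := by
        simp [cw, sc_val]
      show deg (cw (1 : GL (Fin 2) R) (sc u) (1, 1)) ≤ _
      rw [this, (h.bot 0).2 rfl]
      exact bot_le
  obtain ⟨m, hm⟩ := WithBot.ne_bot_iff_exists.1 (h.unit u.isUnit)
  rw [← hm, ← WithBot.coe_add, WithBot.coe_inj] at e2
  rw [← hm, WithBot.coe_le_coe] at e1
  unfold dd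
  rw [w_one_one h, e2]
  omega

end sc

section nz

variable {R : Type} [CommRing R]

/-- the square divided by the determinant -/
noncomputable def nz (g : GL (Fin 2) R) : GL (Fin 2) R := g ^ 2 * sc (dt g)⁻¹

theorem dt_nz (g : GL (Fin 2) R) : dt (nz g) = 1 := by
  unfold nz
  rw [map_mul, map_pow, dt_sc, inv_pow, mul_inv_cancel]

theorem nz_pow (g : GL (Fin 2) R) (k : ℕ) : nz g ^ k = g ^ (2 * k) * sc ((dt g)⁻¹ ^ k) := by
  unfold nz
  have h1 : Commute (g ^ 2) (sc (dt g)⁻¹) := (sc_comm _ _).symm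
  rw [h1.mul_pow, ← pow_mul, map_pow]

end nz

/-- **matrices over a ring with two degree functions** -/
theorem core {C : ∀ (G : Type) [Group G], Prop} (hC : ClosedE C) (hcat : CatC C)
    {R : Type} [CommRing R] [Nontrivial R] {deg1 deg2 : R → WithBot ℤ} (h1 : IsDeg deg1)
    (h2 : IsDeg deg2) {G : Type} [Group G] (ρ : G →* GL (Fin 2) R)
    (hT : ∀ (g : G) (n : ℕ), (∀ (k : ℕ) (i j : Fin 2), deg1 ((nz (ρ g) ^ k : GL (Fin 2) R) i j) ≤ n ∧
      deg2 ((nz (ρ g) ^ k : GL (Fin 2) R) i j) ≤ n) → ∃ m : ℕ, 0 < m ∧ nz (ρ g) ^ m = 1)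
    (hP : ∀ n : ℕ, ∃ (P : Type) (_ : Group P) (f : G →* P), C P ∧
      {g : G | (∀ i j : Fin 2, deg1 (ρ g i j) ≤ n ∧ deg2 (ρ g i j) ≤ n) ∧ f g = 1}.Finite) :
    C G := by
  let _ : MulAction G (GL (Fin 2) R) := MulAction.compHom _ ρ
  have hs : ∀ (g : G) (x : GL (Fin 2) R), g • x = ρ g * x := fun _ _ => rfl
  have htri : ∀ {deg : R → WithBot ℤ} (h : IsDeg deg) (x : GL (Fin 2) R) (u : Rˣ),
      dd deg 1 (x * sc u) ≤ dd deg 1 x := by
    intro deg h x u
    have e1 := (dd_zh h).tri 1 x (x * sc u)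
    rw [dd_sc h] at e1
    omega
  refine two_len hC hcat (G := G) (S1 := GL (Fin 2) R) (S2 := GL (Fin 2) R) (dd_zh h1) (dd_zh h2)
    ?_ ?_ 1 1 ?_ ?_
  · intro g x y
    rw [hs, hs, dd_mul h1]
  · intro g x y
    rw [hs, hs, dd_mul h2]
  · rintro g ⟨n, hn⟩
    obtain ⟨m, hm, hm'⟩ := hT g n fun k i j => by
      obtain ⟨e1, e2⟩ := hn (2 * k)
      rw [hs, mul_one, map_pow] at e1 e2
      have e3 : dt (nz (ρ g) ^ k) = 1 := by rw [map_pow, dt_nz, one_pow]
      refine ⟨entry_le h1 (w_of_dt h1 e3) ?_ i j, entry_le h2 (w_of_dt h2 e3) ?_ i j⟩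
      · rw [nz_pow]
        exact (htri h1 _ _).trans e1
      · rw [nz_pow]
        exact (htri h2 _ _).trans e2
    rw [nz_pow] at hm'
    have e4 : ρ (g ^ (2 * m)) = sc (dt (ρ g) ^ m) := by
      rw [map_pow, eq_mul_inv_of_mul_eq hm', one_mul, ← map_inv, inv_pow, inv_inv]
    refine ⟨2 * m, by omega, fun s => ?_, fun s => ?_⟩
    · rw [hs, e4, sc_comm, dd_sc h1]
    · rw [hs, e4, sc_comm, dd_sc h2]
  · intro n
    obtain ⟨P, _, f, hCP, hf⟩ := hP n
    refine ⟨P × (Multiplicative ℤ × Multiplicative ℤ), inferInstance,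
      f.prod (((chi h1).comp ρ).prod ((chi h2).comp ρ)),
      hC.base.prod _ _ hCP (hC.base.prod _ _ hC.base.int hC.base.int), hf.subset ?_⟩
    rintro g ⟨e1, e2, e3⟩
    rw [hs, mul_one] at e1 e2
    have e4 : f g = 1 := congrArg Prod.fst e3
    have e5 : chi h1 (ρ g) = 1 := congrArg (fun x => x.2.1) e3
    have e6 : chi h2 (ρ g) = 1 := congrArg (fun x => x.2.2) e3
    exact ⟨fun i j => ⟨entry_le h1 ((chi_eq h1 _).1 e5) e1 i j,
      entry_le h2 ((chi_eq h2 _).1 e6) e2 i j⟩, e4⟩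

end Pool.Agent.Run7.h390.TP
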